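import Mathlib

set_option autoImplicit false

namespace Pool.SHA

open Finset

/-- at least a quarter of the pairs are coprime -/
lemma low_pairs (N : ℕ) :
    (N : ℝ) ^ 2 / 4 ≤ (((Icc 1 N ×ˢ Icc 1 N).filter fun t : ℕ × ℕ => Nat.Coprime t.1 t.2).card : ℝ) := by
  classical
  set P := Icc 1 N ×ˢ Icc 1 N with hP
  have hPc : (P.card : ℝ) = (N : ℝ) ^ 2 := by
    rw [hP, card_product, Nat.card_Icc]; push_cast; ring
  have hcov : P.filter (fun t : ℕ × ℕ => ¬ Nat.Coprime t.1 t.2) ⊆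
      (Icc 2 N).biUnion fun d => (Icc 1 (N / d) ×ˢ Icc 1 (N / d)).image
        fun s : ℕ × ℕ => (d * s.1, d * s.2) := by
    intro t ht
    obtain ⟨h1, h2⟩ := mem_filter.1 ht
    rw [hP, mem_product, mem_Icc, mem_Icc] at h1
    obtain ⟨⟨ha1, ha2⟩, hb1, hb2⟩ := h1
    have hg1 : Nat.gcd t.1 t.2 ≠ 1 := h2
    have hg0 : 0 < Nat.gcd t.1 t.2 := Nat.gcd_pos_of_pos_left _ ha1
    set d := Nat.gcd t.1 t.2 with hd
    have hdl : d ∣ t.1 := Nat.gcd_dvd_left _ _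
    have hdr : d ∣ t.2 := Nat.gcd_dvd_right _ _
    rw [mem_biUnion]
    refine ⟨d, mem_Icc.2 ⟨by omega, (Nat.le_of_dvd ha1 hdl).trans ha2⟩, ?_⟩
    rw [mem_image]
    refine ⟨(t.1 / d, t.2 / d), ?_, ?_⟩
    · rw [mem_product, mem_Icc, mem_Icc]
      exact ⟨⟨Nat.div_pos (Nat.le_of_dvd ha1 hdl) hg0, Nat.div_le_div_right ha2⟩,
        ⟨Nat.div_pos (Nat.le_of_dvd hb1 hdr) hg0, Nat.div_le_div_right hb2⟩⟩
    · simp only [Nat.mul_div_cancel' hdl, Nat.mul_div_cancel' hdr]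
  have hbad : ((P.filter (fun t : ℕ × ℕ => ¬ Nat.Coprime t.1 t.2)).card : ℝ) ≤ 3 / 4 * (N : ℝ) ^ 2 := by
    have h1 : ((P.filter (fun t : ℕ × ℕ => ¬ Nat.Coprime t.1 t.2)).card : ℝ) ≤
        ∑ d ∈ Icc 2 N, ((N / d : ℕ) : ℝ) ^ 2 := by
      calc ((P.filter (fun t : ℕ × ℕ => ¬ Nat.Coprime t.1 t.2)).card : ℝ)
          ≤ (((Icc 2 N).biUnion fun d => (Icc 1 (N / d) ×ˢ Icc 1 (N / d)).image
        fun s : ℕ × ℕ => (d * s.1, d * s.2)).card : ℝ) := by exact_mod_cast card_le_card hcov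
        _ ≤ ∑ d ∈ Icc 2 N, (((Icc 1 (N / d) ×ˢ Icc 1 (N / d)).image
        fun s : ℕ × ℕ => (d * s.1, d * s.2)).card : ℝ) := by exact_mod_cast card_biUnion_le
        _ ≤ ∑ d ∈ Icc 2 N, ((N / d : ℕ) : ℝ) ^ 2 := by
          refine sum_le_sum fun d _ => ?_
          have := card_image_le (s := Icc 1 (N / d) ×ˢ Icc 1 (N / d))
            (f := fun s : ℕ × ℕ => (d * s.1, d * s.2))
          rw [card_product, Nat.card_Icc] at this
          calc _ ≤ (((N / d + 1 - 1) * (N / d + 1 - 1) : ℕ) : ℝ) := by exact_mod_cast this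
            _ = ((N / d : ℕ) : ℝ) ^ 2 := by rw [Nat.add_sub_cancel]; push_cast; ring
    refine h1.trans ?_
    have h2 : ∀ M : ℕ, ∑ d ∈ Icc 2 M, (1 : ℝ) / (d : ℝ) ^ 2 ≤ 3 / 4 ∧
        (2 ≤ M → ∑ d ∈ Icc 2 M, (1 : ℝ) / (d : ℝ) ^ 2 ≤ 3 / 4 - 1 / (M : ℝ)) := by
      intro M
      have h3 : 2 ≤ M → ∑ d ∈ Icc 2 M, (1 : ℝ) / (d : ℝ) ^ 2 ≤ 3 / 4 - 1 / (M : ℝ) := by
        intro hM
        induction M, hM using Nat.le_induction with
        | base => norm_num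
        | succ M hM ih =>
          rw [sum_Icc_succ_top (by omega)]
          have hM0 : (0 : ℝ) < M := by exact_mod_cast (by omega : 0 < M)
          have : (1 : ℝ) / ((M + 1 : ℕ) : ℝ) ^ 2 ≤ 1 / (M : ℝ) - 1 / ((M + 1 : ℕ) : ℝ) := by
            push_cast
            rw [div_sub_div _ _ hM0.ne' (by positivity), div_le_div_iff₀ (by positivity) (by positivity)]
            nlinarith
          linarith
      refine ⟨?_, h3⟩
      rcases Nat.lt_or_ge M 2 with h | h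
      · rw [Icc_eq_empty (by omega)]; norm_num
      · have := h3 h
        have h4 : (0 : ℝ) ≤ 1 / (M : ℝ) := by positivity
        linarith
    calc ∑ d ∈ Icc 2 N, ((N / d : ℕ) : ℝ) ^ 2 ≤ ∑ d ∈ Icc 2 N, (N : ℝ) ^ 2 * (1 / (d : ℝ) ^ 2) := by
          refine sum_le_sum fun d hd => ?_
          have hd2 : 2 ≤ d := (mem_Icc.1 hd).1
          have : ((N / d : ℕ) : ℝ) ≤ (N : ℝ) / d := Nat.cast_div_le
          calc ((N / d : ℕ) : ℝ) ^ 2 ≤ ((N : ℝ) / d) ^ 2 := pow_le_pow_left₀ (Nat.cast_nonneg _) this 2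
            _ = _ := by rw [div_pow]; ring
      _ = (N : ℝ) ^ 2 * ∑ d ∈ Icc 2 N, (1 : ℝ) / (d : ℝ) ^ 2 := by rw [mul_sum]
      _ ≤ (N : ℝ) ^ 2 * (3 / 4) := mul_le_mul_of_nonneg_left (h2 N).1 (sq_nonneg _)
      _ = 3 / 4 * (N : ℝ) ^ 2 := by ring
  have hsplit := card_filter_add_card_filter_not (s := P) (fun t : ℕ × ℕ => Nat.Coprime t.1 t.2)
  have hsplit' : ((P.filter fun t : ℕ × ℕ => Nat.Coprime t.1 t.2).card : ℝ) +
      ((P.filter fun t : ℕ × ℕ => ¬ Nat.Coprime t.1 t.2).card : ℝ) = (N : ℝ) ^ 2 := by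
    rw [← hPc]; exact_mod_cast hsplit
  linarith

/-- there are at least `X ^ (2/3) / 32` triples of radical at most `X`, already with `a + b ≤ X` -/
theorem low (X H : ℝ) (hX : 2 ≤ X) (hH : Real.log X ≤ H)
    (hfin : {t : ℕ × ℕ | 0 < t.1 ∧ 0 < t.2 ∧ Nat.Coprime t.1 t.2 ∧
      ((∏ p ∈ (t.1 * t.2 * (t.1 + t.2)).primeFactors, p : ℕ) : ℝ) ≤ X ∧
      Real.log ((t.1 + t.2 : ℕ) : ℝ) ≤ H}.Finite) :
    X ^ (2 / 3 : ℝ) / 32 ≤ (({t : ℕ × ℕ | 0 < t.1 ∧ 0 < t.2 ∧ Nat.Coprime t.1 t.2 ∧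
      ((∏ p ∈ (t.1 * t.2 * (t.1 + t.2)).primeFactors, p : ℕ) : ℝ) ≤ X ∧
      Real.log ((t.1 + t.2 : ℕ) : ℝ) ≤ H}.ncard : ℕ) : ℝ) := by
  classical
  set Y : ℝ := (X / 2) ^ (1 / 3 : ℝ) with hY
  set N : ℕ := ⌊Y⌋₊ with hN
  have hX0 : 0 < X := by linarith
  have hY1 : 1 ≤ Y := Real.one_le_rpow (by linarith) (by norm_num)
  have hY3 : Y ^ 3 = X / 2 := by
    rw [hY, ← Real.rpow_natCast, ← Real.rpow_mul (by linarith)]
    norm_num
  have hNY : (N : ℝ) ≤ Y := Nat.floor_le (by linarith)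
  have hN1 : 1 ≤ N := Nat.le_floor (by exact_mod_cast hY1)
  have hN1' : (1 : ℝ) ≤ N := by exact_mod_cast hN1
  have hYN : Y ≤ 2 * N := by
    have := Nat.lt_floor_add_one Y
    rw [← hN] at this
    linarith
  have hsub : ((((Icc 1 N ×ˢ Icc 1 N).filter fun t : ℕ × ℕ => Nat.Coprime t.1 t.2) :
      Finset (ℕ × ℕ)) : Set (ℕ × ℕ)) ⊆ {t : ℕ × ℕ | 0 < t.1 ∧ 0 < t.2 ∧ Nat.Coprime t.1 t.2 ∧
      ((∏ p ∈ (t.1 * t.2 * (t.1 + t.2)).primeFactors, p : ℕ) : ℝ) ≤ X ∧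
      Real.log ((t.1 + t.2 : ℕ) : ℝ) ≤ H} := by
    intro t ht
    rw [mem_coe, mem_filter, mem_product, mem_Icc, mem_Icc] at ht
    obtain ⟨⟨⟨ha1, ha2⟩, hb1, hb2⟩, hc⟩ := ht
    have ha2' : (t.1 : ℝ) ≤ Y := le_trans (by exact_mod_cast ha2) hNY
    have hb2' : (t.2 : ℝ) ≤ Y := le_trans (by exact_mod_cast hb2) hNY
    have ha0 : (0 : ℝ) ≤ t.1 := Nat.cast_nonneg _
    have hb0 : (0 : ℝ) ≤ t.2 := Nat.cast_nonneg _
    have hsum : (t.1 : ℝ) + t.2 ≤ 2 * Y := by linarith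
    have hpos : 0 < t.1 * t.2 * (t.1 + t.2) := by positivity
    refine ⟨ha1, hb1, hc, ?_, ?_⟩
    · calc ((∏ p ∈ (t.1 * t.2 * (t.1 + t.2)).primeFactors, p : ℕ) : ℝ)
          ≤ ((t.1 * t.2 * (t.1 + t.2) : ℕ) : ℝ) := by
            exact_mod_cast Nat.le_of_dvd hpos (Nat.prod_primeFactors_dvd _)
        _ = (t.1 : ℝ) * t.2 * (t.1 + t.2) := by push_cast; ring
        _ ≤ Y * Y * (2 * Y) := by
            refine mul_le_mul (mul_le_mul ha2' hb2' hb0 (by linarith)) hsum (by linarith)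
              (by positivity)
        _ = 2 * Y ^ 3 := by ring
        _ = X := by rw [hY3]; ring
    · refine le_trans (Real.log_le_log ?_ ?_) hH
      · exact_mod_cast (by omega : 0 < t.1 + t.2)
      · push_cast
        calc (t.1 : ℝ) + t.2 ≤ 2 * Y := hsum
          _ ≤ 2 * Y ^ 3 := by
            have : Y ≤ Y ^ 3 := by nlinarith [mul_nonneg (by linarith : (0:ℝ) ≤ Y - 1) (by linarith : (0:ℝ) ≤ Y)]
            linarith
          _ = X := by rw [hY3]; ring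
  have h1 := Set.ncard_le_ncard hsub hfin
  rw [Set.ncard_coe_finset] at h1
  have h2 := low_pairs N
  have h3 : X ^ (2 / 3 : ℝ) / 32 ≤ (N : ℝ) ^ 2 / 4 := by
    have h4 : (Y : ℝ) ^ 2 = (X / 2) ^ (2 / 3 : ℝ) := by
      rw [hY, ← Real.rpow_natCast, ← Real.rpow_mul (by linarith)]
      norm_num
    have h5 : X ^ (2 / 3 : ℝ) ≤ 2 * (X / 2) ^ (2 / 3 : ℝ) := by
      rw [Real.div_rpow hX0.le (by norm_num)]
      have h6 : (2 : ℝ) ^ (2 / 3 : ℝ) ≤ 2 := by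
        calc (2 : ℝ) ^ (2 / 3 : ℝ) ≤ 2 ^ (1 : ℝ) :=
              Real.rpow_le_rpow_of_exponent_le (by norm_num) (by norm_num)
          _ = 2 := Real.rpow_one 2
      have h7 : 0 < (2 : ℝ) ^ (2 / 3 : ℝ) := by positivity
      have h8 : 0 ≤ X ^ (2 / 3 : ℝ) := Real.rpow_nonneg hX0.le _
      rw [← mul_div_assoc, le_div_iff₀ h7]
      nlinarith
    have h9 : Y ^ 2 ≤ 4 * (N : ℝ) ^ 2 := by nlinarith
    rw [h4] at h9
    linarith
  calc X ^ (2 / 3 : ℝ) / 32 ≤ (N : ℝ) ^ 2 / 4 := h3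
    _ ≤ _ := h2
    _ ≤ _ := by exact_mod_cast h1

end Pool.SHA
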