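import Pool.Agent.H45.SHA.Stmts

set_option autoImplicit false

namespace Pool.SHA

open MvPolynomial

/-- scaling of the variables -/
noncomputable def tau {n : ℕ} (z : Fin n → ℚ) : MvPolynomial (Fin n) ℚ →ₐ[ℚ] MvPolynomial (Fin n) ℚ :=
  aeval (fun j => C (z j) * X j)

lemma tau_X {n : ℕ} (z : Fin n → ℚ) (j : Fin n) : tau z (X j) = C (z j) * X j := by
  simp [tau]

lemma tau_C {n : ℕ} (z : Fin n → ℚ) (a : ℚ) : tau z (C a) = C a := by
  simp [tau]

lemma eval_tau {n : ℕ} (z x : Fin n → ℚ) (F : MvPolynomial (Fin n) ℚ) :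
    eval x (tau z F) = eval (z * x) F := by
  induction F using MvPolynomial.induction_on with
  | C a => rw [tau_C, eval_C, eval_C]
  | add p q hp hq => rw [map_add, map_add, map_add, hp, hq]
  | mul_X p i hp => rw [map_mul, map_mul, map_mul, hp, tau_X, map_mul, eval_C, eval_X, eval_X]; rfl

lemma tau_tau {n : ℕ} (z w : Fin n → ℚ) (F : MvPolynomial (Fin n) ℚ) :
    tau z (tau w F) = tau (z * w) F := by
  induction F using MvPolynomial.induction_on with
  | C a => rw [tau_C, tau_C, tau_C]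
  | add p q hp hq => rw [map_add, map_add, map_add, hp, hq]
  | mul_X p i hp =>
    rw [map_mul, map_mul, map_mul, hp, tau_X, tau_X, map_mul, tau_X, tau_C, Pi.mul_apply, C_mul]
    ring

lemma tau_one {n : ℕ} (F : MvPolynomial (Fin n) ℚ) : tau 1 F = F := by
  induction F using MvPolynomial.induction_on with
  | C a => rw [tau_C]
  | add p q hp hq => rw [map_add, hp, hq]
  | mul_X p i hp => rw [map_mul, hp, tau_X, Pi.one_apply, C_1, one_mul]

lemma coeff_tau {n : ℕ} (z : Fin n → ℚ) (F : MvPolynomial (Fin n) ℚ) (m : Fin n →₀ ℕ) :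
    coeff m (tau z F) = (∏ j, z j ^ m j) * coeff m F := by
  classical
  induction F using MvPolynomial.induction_on' with
  | monomial u a =>
    have h : tau z (monomial u a) = monomial u ((∏ j, z j ^ u j) * a) := by
      rw [tau, aeval_monomial, Finsupp.prod_fintype _ _ (by simp)]
      simp_rw [mul_pow]
      rw [Finset.prod_mul_distrib]
      rw [monomial_eq (s := u) (a := (∏ j, z j ^ u j) * a), Finsupp.prod_fintype _ _ (by simp)]
      simp_rw [← map_pow C]
      rw [← map_prod C, algebraMap_eq, C_mul]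
      ring
    rw [h, coeff_monomial, coeff_monomial]
    split_ifs with h1
    · subst h1; rfl
    · simp
  | add p q hp hq => rw [map_add, coeff_add, coeff_add, hp, hq, mul_add]

/-- scaling by nonzero numbers is an automorphism -/
noncomputable def tauE {n : ℕ} (z : Fin n → ℚ) (hz : ∀ j, z j ≠ 0) :
    MvPolynomial (Fin n) ℚ ≃ₐ[ℚ] MvPolynomial (Fin n) ℚ :=
  AlgEquiv.ofAlgHom (tau z) (tau z⁻¹)
    (by
      apply AlgHom.ext
      intro F
      rw [AlgHom.comp_apply, tau_tau]
      have : z * z⁻¹ = 1 := by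
        funext j; simp [hz j]
      rw [this, tau_one]; rfl)
    (by
      apply AlgHom.ext
      intro F
      rw [AlgHom.comp_apply, tau_tau]
      have : z⁻¹ * z = 1 := by
        funext j; simp [hz j]
      rw [this, tau_one]; rfl)

lemma tauE_apply {n : ℕ} (z : Fin n → ℚ) (hz : ∀ j, z j ≠ 0) (F : MvPolynomial (Fin n) ℚ) :
    tauE z hz F = tau z F := rfl

lemma prod_pow_ne {n : ℕ} {z : Fin n → ℚ} (hz : ∀ j, z j ≠ 0) (m : Fin n →₀ ℕ) :
    ∏ j, z j ^ m j ≠ 0 := Finset.prod_ne_zero_iff.2 fun j _ => pow_ne_zero _ (hz j)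

lemma support_tau {n : ℕ} {z : Fin n → ℚ} (hz : ∀ j, z j ≠ 0) (F : MvPolynomial (Fin n) ℚ) :
    (tau z F).support = F.support := by
  ext m
  rw [mem_support_iff, mem_support_iff, coeff_tau]
  simp [prod_pow_ne hz m]

lemma tau_ne_zero {n : ℕ} {z : Fin n → ℚ} (hz : ∀ j, z j ≠ 0) {F : MvPolynomial (Fin n) ℚ}
    (hF : F ≠ 0) : tau z F ≠ 0 := by
  intro h
  apply hF
  rw [← support_eq_empty, ← support_tau hz, h, support_zero]

lemma degreeOf_tau {n : ℕ} {z : Fin n → ℚ} (hz : ∀ j, z j ≠ 0) (F : MvPolynomial (Fin n) ℚ)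
    (j : Fin n) : (tau z F).degreeOf j = F.degreeOf j := by
  rw [degreeOf_eq_sup, degreeOf_eq_sup, support_tau hz]

lemma totalDegree_tau {n : ℕ} {z : Fin n → ℚ} (hz : ∀ j, z j ≠ 0) (F : MvPolynomial (Fin n) ℚ) :
    (tau z F).totalDegree = F.totalDegree := by
  rw [totalDegree, totalDegree, support_tau hz]

lemma prime_tau {n : ℕ} {z : Fin n → ℚ} (hz : ∀ j, z j ≠ 0) {p : MvPolynomial (Fin n) ℚ}
    (hp : Prime p) : Prime (tau z p) :=
  (MulEquiv.prime_iff (tauE z hz).toMulEquiv).2 hp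

/-- few non-associated prime divisors -/
lemma ac_card {n : ℕ} {ι : Type*} [DecidableEq ι] (s : Finset ι) (h : ι → MvPolynomial (Fin n) ℚ)
    (hp : ∀ i ∈ s, Prime (h i))
    (hna : ∀ i ∈ s, ∀ j ∈ s, i ≠ j → ¬ Associated (h i) (h j)) :
    ∀ F : MvPolynomial (Fin n) ℚ, F ≠ 0 → (∀ i ∈ s, h i ∣ F) → s.card ≤ F.totalDegree := by
  induction s using Finset.induction_on with
  | empty => intro F _ _; simp
  | insert a s ha ih =>
    intro F hF hd
    obtain ⟨G, rfl⟩ := hd a (Finset.mem_insert_self _ _)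
    have hpa := hp a (Finset.mem_insert_self _ _)
    have hG : G ≠ 0 := fun h0 => hF (by rw [h0, mul_zero])
    have h1 : s.card ≤ G.totalDegree := by
      refine ih (fun i hi => hp i (Finset.mem_insert_of_mem hi))
        (fun i hi j hj => hna i (Finset.mem_insert_of_mem hi) j (Finset.mem_insert_of_mem hj))
        G hG fun i hi => ?_
      have hpi := hp i (Finset.mem_insert_of_mem hi)
      rcases hpi.dvd_or_dvd (hd i (Finset.mem_insert_of_mem hi)) with h2 | h2
      · exfalso
        refine hna i (Finset.mem_insert_of_mem hi) a (Finset.mem_insert_self _ _) ?_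
          (hpi.associated_of_dvd hpa h2)
        rintro rfl; exact ha hi
      · exact h2
    rw [totalDegree_mul_of_isDomain hpa.ne_zero hG, Finset.card_insert_of_notMem ha]
    have h3 : 1 ≤ (h a).totalDegree := by
      by_contra hc
      have h4 : (h a).totalDegree = 0 := by omega
      rw [totalDegree_eq_zero_iff_eq_C] at h4
      apply hpa.not_isUnit
      rw [h4]
      refine IsUnit.map C (isUnit_iff_ne_zero.2 fun h5 => hpa.ne_zero ?_)
      rw [h4, h5, C_0]
    omega

/-- a prime factor of a polynomial without monomial factors has two monomials -/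
lemma ac_two {n : ℕ} {F p : MvPolynomial (Fin n) ℚ} (hX : ∀ j, ¬ X j ∣ F) (hp : Prime p)
    (hd : p ∣ F) : ∃ m1 ∈ p.support, ∃ m2 ∈ p.support, m1 ≠ m2 := by
  classical
  by_contra hc
  push Not at hc
  obtain ⟨m, hm⟩ : p.support.Nonempty := by
    rw [Finset.nonempty_iff_ne_empty, Ne, support_eq_empty]
    exact hp.ne_zero
  have hmon : p = monomial m (coeff m p) := by
    ext m'
    rw [coeff_monomial]
    split_ifs with h
    · rw [h]
    · by_contra hne
      exact h (hc m hm m' (mem_support_iff.2 hne))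
  have hm0 : m ≠ 0 := by
    intro h0
    apply hp.not_isUnit
    rw [hmon, h0, monomial_zero']
    refine IsUnit.map C (isUnit_iff_ne_zero.2 ?_)
    rw [h0] at hm
    exact mem_support_iff.1 hm
  obtain ⟨j, hj⟩ : ∃ j, m j ≠ 0 := by
    by_contra hall
    push Not at hall
    exact hm0 (Finsupp.ext hall)
  apply hX j
  refine dvd_trans ?_ hd
  rw [hmon, X_dvd_monomial]
  exact Or.inr hj

/-- independence: scalings of a polynomial with two monomials are not associated -/
lemma ac_nonassoc {n : ℕ} {z z' : Fin n → ℚ} (hz : ∀ j, z j ≠ 0) (hz' : ∀ j, z' j ≠ 0)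
    (hst : ∀ e : Fin n → ℤ, e ≠ 0 → ∏ j, (z j / z' j) ^ e j ≠ 1)
    {p : MvPolynomial (Fin n) ℚ} {m1 m2 : Fin n →₀ ℕ} (h1 : m1 ∈ p.support) (h2 : m2 ∈ p.support)
    (h12 : m1 ≠ m2) : ¬ Associated (tau z⁻¹ p) (tau z'⁻¹ p) := by
  rintro ⟨u, hu⟩
  have hu2 : (u : MvPolynomial (Fin n) ℚ).totalDegree = 0 :=
    (isUnit_iff_totalDegree_of_isReduced.1 u.isUnit).2
  rw [totalDegree_eq_zero_iff_eq_C] at hu2
  set c := coeff 0 (u : MvPolynomial (Fin n) ℚ) with hc
  rw [hu2, mul_comm] at hu
  have key : ∀ m ∈ p.support, c = ∏ j, (z j / z' j) ^ m j := by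
    intro m hm
    have h3 := congrArg (coeff m) hu
    rw [coeff_C_mul, coeff_tau, coeff_tau] at h3
    have h4 : coeff m p ≠ 0 := mem_support_iff.1 hm
    have h5 : c * ∏ j, z⁻¹ j ^ m j = ∏ j, z'⁻¹ j ^ m j := by
      apply mul_right_cancel₀ h4
      rw [mul_assoc]; exact h3
    have h6 : ∏ j, (z j / z' j) ^ m j = (∏ j, z'⁻¹ j ^ m j) / ∏ j, z⁻¹ j ^ m j := by
      rw [← Finset.prod_div_distrib]
      refine Finset.prod_congr rfl fun j _ => ?_
      rw [Pi.inv_apply, Pi.inv_apply, ← div_pow]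
      congr 1
      field_simp [hz j, hz' j]
    rw [h6, ← h5, mul_div_assoc, div_self, mul_one]
    exact prod_pow_ne (fun j => inv_ne_zero (hz j)) m
  refine hst (fun j => (m1 j : ℤ) - m2 j) ?_ ?_
  · intro h0
    apply h12
    ext j
    have := congrFun h0 j
    simp only [Pi.zero_apply] at this
    omega
  · have hq : ∀ j, z j / z' j ≠ 0 := fun j => div_ne_zero (hz j) (hz' j)
    have : ∀ j, (z j / z' j) ^ ((m1 j : ℤ) - m2 j) = (z j / z' j) ^ m1 j / (z j / z' j) ^ m2 j := by
      intro j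
      rw [zpow_sub₀ (hq j), zpow_natCast, zpow_natCast]
    simp_rw [this]
    rw [Finset.prod_div_distrib, ← key m1 h1, ← key m2 h2, div_self]
    rw [key m1 h1]
    exact prod_pow_ne hq m1

open Classical in
/-- few non-coprime pairs -/
lemma ac_pairs {n D : ℕ} {F : MvPolynomial (Fin n) ℚ} (hF : F ≠ 0) (hX : ∀ j, ¬ X j ∣ F)
    (hD : F.totalDegree ≤ D) {Z : Finset (Fin n → ℚ)} (hZ : Star Z) {z : Fin n → ℚ} (hz : z ∈ Z) :
    (Z.filter fun z' => ¬ IsRelPrime (tau z F) (tau z' F)).card ≤ D * D := by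
  set N := Z.filter fun z' => ¬ IsRelPrime (tau z F) (tau z' F) with hN
  have hz0 := hZ.1 z hz
  have hFz : tau z F ≠ 0 := tau_ne_zero hz0 hF
  have h1 : ∀ z' ∈ N, ∃ p : MvPolynomial (Fin n) ℚ, Prime p ∧ p ∣ tau z F ∧ p ∣ tau z' F := by
    intro z' hz'
    have h2 := (Finset.mem_filter.1 hz').2
    rw [UniqueFactorizationMonoid.isRelPrime_iff_no_prime_factors hFz] at h2
    push Not at h2
    obtain ⟨p, h3, h4, h5⟩ := h2
    exact ⟨p, h5, h3, h4⟩
  choose! p hp1 hp2 hp3 using h1
  set cls : (Fin n → ℚ) → Associates (MvPolynomial (Fin n) ℚ) := fun z' => Associates.mk (p z')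
    with hcls
  have himg : (N.image cls).card ≤ D := by
    refine (ac_card (N.image cls) (fun c => Quotient.out c) ?_ ?_ (tau z F) hFz ?_).trans
      ((totalDegree_tau hz0 F).trans_le hD)
    · intro c hc
      obtain ⟨z', hz', rfl⟩ := Finset.mem_image.1 hc
      have : Associated (p z') (Quotient.out (cls z')) := by
        rw [← Associates.mk_eq_mk_iff_associated]
        exact (Quotient.out_eq (cls z')).symm
      exact this.prime (hp1 z' hz')
    · intro c hc c' hc' hne has
      apply hne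
      have h2 := Associates.mk_eq_mk_iff_associated.2 has
      have e1 : Associates.mk (Quotient.out c) = c := Quotient.out_eq c
      have e2 : Associates.mk (Quotient.out c') = c' := Quotient.out_eq c'
      rw [e1, e2] at h2
      exact h2
    · intro c hc
      obtain ⟨z', hz', rfl⟩ := Finset.mem_image.1 hc
      have : Associated (p z') (Quotient.out (cls z')) := by
        rw [← Associates.mk_eq_mk_iff_associated]
        exact (Quotient.out_eq (cls z')).symm
      exact this.symm.dvd.trans (hp2 z' hz')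
  have hfib : ∀ c ∈ N.image cls, (N.filter fun z' => cls z' = c).card ≤ D := by
    intro c hc
    obtain ⟨z0, hz0N, rfl⟩ := Finset.mem_image.1 hc
    set q := p z0 with hq
    have hsub : ∀ z' ∈ N.filter (fun z' => cls z' = cls z0), z' ∈ Z ∧ q ∣ tau z' F := by
      intro z' hz'
      obtain ⟨h2, h3⟩ := Finset.mem_filter.1 hz'
      refine ⟨(Finset.mem_filter.1 h2).1, ?_⟩
      have h4 : Associated (p z') q := Associates.mk_eq_mk_iff_associated.1 h3
      exact h4.symm.dvd.trans (hp3 z' h2)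
    have hdiv : ∀ z' ∈ N.filter (fun z' => cls z' = cls z0), tau z'⁻¹ q ∣ F := by
      intro z' hz'
      obtain ⟨h2, h3⟩ := hsub z' hz'
      have h4 := map_dvd (tau z'⁻¹) h3
      rw [tau_tau] at h4
      have : z'⁻¹ * z' = 1 := by
        funext j; simp [hZ.1 z' h2 j]
      rwa [this, tau_one] at h4
    have hinv : ∀ z' ∈ Z, ∀ j, z'⁻¹ j ≠ 0 := fun z' h j => inv_ne_zero (hZ.1 z' h j)
    have hqp : Prime q := hp1 z0 hz0N
    refine (ac_card (N.filter fun z' => cls z' = cls z0) (fun z' => tau z'⁻¹ q) ?_ ?_ F hF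
      hdiv).trans hD
    · intro z' hz'
      exact prime_tau (hinv z' (hsub z' hz').1) hqp
    · intro z' hz' z'' hz'' hne
      have h2 := ac_two hX (prime_tau (hinv z' (hsub z' hz').1) hqp) (hdiv z' hz')
      obtain ⟨m1, hm1, m2, hm2, hm⟩ := h2
      rw [support_tau (hinv z' (hsub z' hz').1)] at hm1 hm2
      exact ac_nonassoc (hZ.1 z' (hsub z' hz').1) (hZ.1 z'' (hsub z'' hz'').1)
        (hZ.2 z' (hsub z' hz').1 z'' (hsub z'' hz'').1 hne) hm1 hm2 hm
  calc N.card ≤ D * (N.image cls).card := Finset.card_le_mul_card_image N D hfib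
    _ ≤ D * D := Nat.mul_le_mul_left _ himg

end Pool.SHA
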