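import Pool.Agent.H45.SHA.ACRes
import Pool.Agent.H45.SHA.ACTau

set_option autoImplicit false

namespace Pool.SHA

open MvPolynomial

private lemma ac_total {n L : ℕ} (F : MvPolynomial (Fin n) ℚ) (hL : ∀ j, F.degreeOf j ≤ L) :
    F.totalDegree ≤ n * L := by
  rw [totalDegree]
  refine Finset.sup_le fun m hm => ?_
  rw [Finsupp.sum_fintype _ _ (by simp)]
  calc ∑ j, m j ≤ ∑ _j : Fin n, L :=
        Finset.sum_le_sum fun j _ => (monomial_le_degreeOf j hm).trans (hL j)
    _ = n * L := by simp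

private lemma ac_star_tail {n : ℕ} {Z : Finset (Fin (n + 1) → ℚ)} (hZ : Star Z) :
    Star (Z.image (Fin.tail : (Fin (n + 1) → ℚ) → Fin n → ℚ)) := by
  classical
  constructor
  · intro z hz j
    obtain ⟨a, ha, rfl⟩ := Finset.mem_image.1 hz
    exact hZ.1 a ha _
  · intro z hz z' hz' hne e he
    obtain ⟨a, ha, rfl⟩ := Finset.mem_image.1 hz
    obtain ⟨b, hb, rfl⟩ := Finset.mem_image.1 hz'
    have hab : a ≠ b := by rintro rfl; exact hne rfl
    have h := hZ.2 a ha b hb hab (Fin.cons 0 e) (by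
      intro h0
      apply he
      funext j
      have := congrFun h0 j.succ
      simpa using this)
    rw [Fin.prod_univ_succ] at h
    simpa [Fin.tail] using h

private lemma ac_tail_inj {n : ℕ} {Z : Finset (Fin (n + 2) → ℚ)} (hZ : Star Z) :
    ∀ a ∈ Z, ∀ b ∈ Z, (Fin.tail a : Fin (n + 1) → ℚ) = Fin.tail b → a = b := by
  intro a ha b hb h
  by_contra hne
  refine hZ.2 a ha b hb hne (Pi.single 1 1) (by
    intro h0
    have := congrFun h0 1
    simp at this) ?_
  rw [Finset.prod_eq_single 1]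
  · have h1 : a 1 = b 1 := by
      have := congrFun h 0
      simpa [Fin.tail] using this
    rw [Pi.single_eq_same, zpow_one, h1, div_self (hZ.1 b hb 1)]
  · intro j _ hj
    rw [Pi.single_eq_of_ne hj, zpow_zero]
  · simp

private lemma ac_base (L : ℕ) (Z : Finset (Fin (0 + 1) → ℚ)) (F : MvPolynomial (Fin (0 + 1)) ℚ)
    (hF : F ≠ 0) (hL : ∀ j, F.degreeOf j ≤ L) :
    (Z.filter fun z => eval z F = 0).card ≤ L := by
  classical
  set s0 : Fin 0 → ℚ := fun j => j.elim0 with hs0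
  set g := Polynomial.map (eval s0) (finSuccEquiv ℚ 0 F) with hg
  have hinj : Function.Injective (eval s0 : MvPolynomial (Fin 0) ℚ → ℚ) := by
    intro p q h
    rw [eq_C_of_isEmpty p, eq_C_of_isEmpty q, eval_C, eval_C] at h
    rw [eq_C_of_isEmpty p, eq_C_of_isEmpty q, h]
  have hg0 : g ≠ 0 := by
    rw [hg, Ne, Polynomial.map_eq_zero_iff hinj]
    intro h
    exact hF ((map_eq_zero_iff _ (finSuccEquiv ℚ 0).injective).1 h)
  have h1 : (Z.filter fun z => eval z F = 0).card ≤ g.roots.toFinset.card := by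
    refine Finset.card_le_card_of_injOn (fun z => z 0) ?_ ?_
    · intro z hz
      have hz2 := (Finset.mem_filter.1 hz).2
      rw [Finset.mem_coe, Multiset.mem_toFinset, Polynomial.mem_roots hg0, Polynomial.IsRoot.def]
      have h2 : z = (Fin.cons (z 0) s0 : Fin (0 + 1) → ℚ) := by
        funext j
        have : j = 0 := Fin.eq_zero j
        subst this
        rfl
      rw [h2, eval_eq_eval_mv_eval'] at hz2
      exact hz2
    · intro z _ z' _ h
      funext j
      have : j = 0 := Fin.eq_zero j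
      subst this
      exact h
  calc _ ≤ g.roots.toFinset.card := h1
    _ ≤ Multiset.card g.roots := Multiset.toFinset_card_le _
    _ ≤ g.natDegree := Polynomial.card_roots' g
    _ ≤ (finSuccEquiv ℚ 0 F).natDegree := Polynomial.natDegree_map_le
    _ = F.degreeOf 0 := natDegree_finSuccEquiv F
    _ ≤ L := hL 0

open Classical in
private lemma ac_step_aux {k L : ℕ} {C1 : ℝ} (hC1 : 1 ≤ C1)
    (ih : ∀ (Z : Finset (Fin (k + 1) → ℚ)) (F : MvPolynomial (Fin (k + 1)) ℚ), F ≠ 0 →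
      (∀ j, F.degreeOf j ≤ 2 * L * L + L) → Star Z →
      ((((Fintype.piFinset fun _ : Fin (k + 1) => Z)).filter
        (fun w => MvPolynomial.eval (∏ r, w r) F = 0)).card : ℝ) ≤
        C1 * (Z.card : ℝ) ^ ((k : ℝ) + 1 - 1 / 2 ^ k))
    (Z : Finset (Fin (k + 2) → ℚ)) (F : MvPolynomial (Fin (k + 2)) ℚ) (hF : F ≠ 0)
    (hL : ∀ j, F.degreeOf j ≤ L) (hZ : Star Z) (hX : ∀ j, ¬ X j ∣ F) :
    ((((Fintype.piFinset fun _ : Fin (k + 2) => Z)).filter
      (fun w => MvPolynomial.eval (∏ r, w r) F = 0)).card : ℝ) ≤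
      (C1 + (((k + 2) * L : ℕ) : ℝ) ^ 2) * (Z.card : ℝ) ^ ((k : ℝ) + 2 - 1 / 2 ^ (k + 1)) := by
  set n : ℝ := (Z.card : ℝ) with hn
  set D : ℕ := (k + 2) * L with hD
  set E := ((Fintype.piFinset fun _ : Fin (k + 2) => Z)).filter
      (fun w => MvPolynomial.eval (∏ r, w r) F = 0) with hE
  set U := (Fintype.piFinset fun _ : Fin (k + 1) => Z) with hU
  set d : (Fin (k + 1) → Fin (k + 2) → ℚ) → Finset (Fin (k + 2) → ℚ) :=
    fun u => Z.filter fun z => eval (∏ r, u r) (tau z F) = 0 with hd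
  have hUcard : (U.card : ℝ) = n ^ (k + 1) := by
    rw [hU, Fintype.card_piFinset_const]
    push_cast
    simp [hn]
  have hEd : E.card ≤ ∑ u ∈ U, (d u).card := by
    rw [Finset.card_eq_sum_card_fiberwise (f := fun w => (Fin.tail w : Fin (k + 1) → Fin (k + 2) → ℚ))
      (t := U)]
    · refine Finset.sum_le_sum fun u _ => ?_
      refine Finset.card_le_card_of_injOn (fun w => w 0) ?_ ?_
      · intro w hw
        obtain ⟨h1, h2⟩ := Finset.mem_filter.1 hw
        obtain ⟨h3, h4⟩ := Finset.mem_filter.1 h1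
        rw [Finset.mem_coe, hd, Finset.mem_filter]
        refine ⟨(Fintype.mem_piFinset.1 h3) 0, ?_⟩
        rw [eval_tau, ← h2]
        rw [Fin.prod_univ_succ] at h4
        exact h4
      · intro w hw w' hw' h
        obtain ⟨_, h2⟩ := Finset.mem_filter.1 hw
        obtain ⟨_, h2'⟩ := Finset.mem_filter.1 hw'
        rw [← Fin.cons_self_tail w, ← Fin.cons_self_tail w', h2, h2']
        congr 1
    · intro w hw
      obtain ⟨h3, _⟩ := Finset.mem_filter.1 hw
      rw [Finset.mem_coe, hU, Fintype.mem_piFinset]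
      intro r
      exact (Fintype.mem_piFinset.1 h3) r.succ
  have hcs : ((∑ u ∈ U, (d u).card : ℕ) : ℝ) ^ 2 ≤ n ^ (k + 1) * ∑ u ∈ U, ((d u).card : ℝ) ^ 2 := by
    rw [← hUcard]
    push_cast
    exact sq_sum_le_card_mul_sum_sq
  set P := Z ×ˢ Z with hP
  set V : (Fin (k + 2) → ℚ) × (Fin (k + 2) → ℚ) → Finset (Fin (k + 1) → Fin (k + 2) → ℚ) :=
    fun p => U.filter fun u => eval (∏ r, u r) (tau p.1 F) = 0 ∧ eval (∏ r, u r) (tau p.2 F) = 0
    with hV
  have hdc : ∑ u ∈ U, ((d u).card : ℝ) ^ 2 = ∑ p ∈ P, ((V p).card : ℝ) := by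
    have h1 : ∀ u ∈ U, ((d u).card : ℝ) ^ 2 = ∑ p ∈ P, if (eval (∏ r, u r) (tau p.1 F) = 0 ∧
        eval (∏ r, u r) (tau p.2 F) = 0) then (1 : ℝ) else 0 := by
      intro u _
      rw [sq, ← Nat.cast_mul, ← Finset.card_product, Finset.sum_boole]
      congr 1
      congr 1
      ext p
      simp only [hd, hP, Finset.mem_product, Finset.mem_filter]
      tauto
    rw [Finset.sum_congr rfl h1, Finset.sum_comm]
    refine Finset.sum_congr rfl fun p _ => ?_
    rw [Finset.sum_boole]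
  set α : ℝ := (k : ℝ) + 1 - 1 / 2 ^ k with hα
  have h2k : (1 : ℝ) / 2 ^ k ≤ 1 := by
    rw [div_le_one (by positivity)]
    exact one_le_pow₀ (by norm_num)
  have h2k0 : (0 : ℝ) < 1 / 2 ^ k := by positivity
  have hk0 : (0 : ℝ) ≤ k := Nat.cast_nonneg k
  have hα0 : 0 ≤ α := by rw [hα]; linarith
  have hn0 : 0 ≤ n := Nat.cast_nonneg _
  -- coprime pairs
  have hrelp : ∀ p ∈ P, IsRelPrime (tau p.1 F) (tau p.2 F) → ((V p).card : ℝ) ≤ C1 * n ^ α := by
    intro p hp hrel
    obtain ⟨hp1, hp2⟩ := Finset.mem_product.1 hp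
    obtain ⟨R, hR0, hRd, hRe⟩ := ac_res (L := L) (tau p.1 F) (tau p.2 F) (tau_ne_zero (hZ.1 _ hp1) hF)
      (by rw [degreeOf_tau (hZ.1 _ hp1), degreeOf_tau (hZ.1 _ hp2)])
      (fun j => by rw [degreeOf_tau (hZ.1 _ hp1)]; exact hL j)
      (fun j => by rw [degreeOf_tau (hZ.1 _ hp2)]; exact hL j) hrel
    set Z' := Z.image (Fin.tail : (Fin (k + 2) → ℚ) → Fin (k + 1) → ℚ) with hZ'
    have h1 := ih Z' R hR0 hRd (ac_star_tail hZ)
    have h2 : (V p).card ≤ (((Fintype.piFinset fun _ : Fin (k + 1) => Z')).filter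
        (fun w => MvPolynomial.eval (∏ r, w r) R = 0)).card := by
      refine Finset.card_le_card_of_injOn (fun u r => Fin.tail (u r)) ?_ ?_
      · intro u hu
        obtain ⟨h3, h4, h5⟩ := Finset.mem_filter.1 hu
        rw [Finset.mem_coe, Finset.mem_filter, Fintype.mem_piFinset]
        refine ⟨fun r => Finset.mem_image_of_mem _ ((Fintype.mem_piFinset.1 h3) r), ?_⟩
        have h6 := hRe _ h4 h5
        convert h6 using 2
        congr 1
        funext j
        simp only [Finset.prod_apply, Fin.tail]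
      · intro u hu u' hu' h
        obtain ⟨h3, _⟩ := Finset.mem_filter.1 hu
        obtain ⟨h3', _⟩ := Finset.mem_filter.1 hu'
        funext r
        exact ac_tail_inj hZ _ ((Fintype.mem_piFinset.1 h3) r) _ ((Fintype.mem_piFinset.1 h3') r)
          (congrFun h r)
    have h3 : (Z'.card : ℝ) ≤ n := by
      rw [hn]; exact_mod_cast Finset.card_image_le
    calc ((V p).card : ℝ) ≤ _ := by exact_mod_cast h2
      _ ≤ C1 * (Z'.card : ℝ) ^ α := h1
      _ ≤ C1 * n ^ α := by
        refine mul_le_mul_of_nonneg_left (Real.rpow_le_rpow (Nat.cast_nonneg _) h3 hα0) (by linarith)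
  -- all pairs
  have hall : ∀ p, ((V p).card : ℝ) ≤ n ^ (k + 1) := by
    intro p
    rw [← hUcard]
    exact_mod_cast Finset.card_filter_le _ _
  set Pb := P.filter fun p => ¬ IsRelPrime (tau p.1 F) (tau p.2 F) with hPb
  have hPbc : (Pb.card : ℝ) ≤ n * (D : ℝ) ^ 2 := by
    have h1 : Pb.card ≤ Z.card * (D * D) := by
      have h2 : Pb.card = ∑ z ∈ Z, (Pb.filter fun p => p.1 = z).card := by
        apply Finset.card_eq_sum_card_fiberwise
        intro p hp
        exact (Finset.mem_product.1 (Finset.mem_filter.1 hp).1).1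
      rw [h2]
      calc ∑ z ∈ Z, (Pb.filter fun p => p.1 = z).card ≤ ∑ _z ∈ Z, D * D := by
            refine Finset.sum_le_sum fun z hz => ?_
            refine le_trans ?_ (ac_pairs hF hX (ac_total F hL) hZ hz)
            refine Finset.card_le_card_of_injOn (fun p => p.2) ?_ ?_
            · intro p hp
              obtain ⟨h3, h4⟩ := Finset.mem_filter.1 hp
              obtain ⟨h5, h6⟩ := Finset.mem_filter.1 h3
              rw [Finset.mem_coe, Finset.mem_filter]
              rw [← h4]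
              exact ⟨(Finset.mem_product.1 h5).2, h6⟩
            · intro p hp p' hp' h
              obtain ⟨_, h4⟩ := Finset.mem_filter.1 hp
              obtain ⟨_, h4'⟩ := Finset.mem_filter.1 hp'
              exact Prod.ext (h4.trans h4'.symm) h
        _ = Z.card * (D * D) := by simp
    calc (Pb.card : ℝ) ≤ ((Z.card * (D * D) : ℕ) : ℝ) := by exact_mod_cast h1
      _ = n * (D : ℝ) ^ 2 := by push_cast; rw [hn]; ring
  have hsum : ∑ p ∈ P, ((V p).card : ℝ) ≤ n ^ 2 * (C1 * n ^ α) + n * (D : ℝ) ^ 2 * n ^ (k + 1) := by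
    rw [← Finset.sum_filter_add_sum_filter_not P (fun p => IsRelPrime (tau p.1 F) (tau p.2 F))]
    have hCn : 0 ≤ C1 * n ^ α := mul_nonneg (by linarith) (Real.rpow_nonneg hn0 _)
    have h1 : ∑ p ∈ P.filter (fun p => IsRelPrime (tau p.1 F) (tau p.2 F)), ((V p).card : ℝ) ≤
        n ^ 2 * (C1 * n ^ α) := by
      calc _ ≤ ∑ _p ∈ P.filter (fun p => IsRelPrime (tau p.1 F) (tau p.2 F)), C1 * n ^ α :=
            Finset.sum_le_sum fun p hp =>
              hrelp p (Finset.mem_filter.1 hp).1 (Finset.mem_filter.1 hp).2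
        _ = ((P.filter (fun p => IsRelPrime (tau p.1 F) (tau p.2 F))).card : ℝ) * (C1 * n ^ α) := by
            rw [Finset.sum_const, nsmul_eq_mul]
        _ ≤ n ^ 2 * (C1 * n ^ α) := by
            refine mul_le_mul_of_nonneg_right ?_ hCn
            calc ((P.filter (fun p => IsRelPrime (tau p.1 F) (tau p.2 F))).card : ℝ) ≤ P.card := by
                  exact_mod_cast Finset.card_filter_le _ _
              _ = n ^ 2 := by rw [hP, Finset.card_product]; push_cast; rw [hn]; ring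
    have h2 : ∑ p ∈ Pb, ((V p).card : ℝ) ≤ n * (D : ℝ) ^ 2 * n ^ (k + 1) := by
      calc _ ≤ ∑ _p ∈ Pb, n ^ (k + 1) := Finset.sum_le_sum fun p _ => hall p
        _ = (Pb.card : ℝ) * n ^ (k + 1) := by rw [Finset.sum_const, nsmul_eq_mul]
        _ ≤ _ := mul_le_mul_of_nonneg_right hPbc (pow_nonneg hn0 _)
    exact add_le_add h1 h2
  have hEsq : (E.card : ℝ) ^ 2 ≤ n ^ (k + 1) * (n ^ 2 * (C1 * n ^ α) +
      n * (D : ℝ) ^ 2 * n ^ (k + 1)) := by
    calc (E.card : ℝ) ^ 2 ≤ ((∑ u ∈ U, (d u).card : ℕ) : ℝ) ^ 2 :=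
          pow_le_pow_left₀ (Nat.cast_nonneg _) (by exact_mod_cast hEd) 2
      _ ≤ n ^ (k + 1) * ∑ u ∈ U, ((d u).card : ℝ) ^ 2 := hcs
      _ ≤ _ := by
        rw [hdc]
        exact mul_le_mul_of_nonneg_left hsum (pow_nonneg hn0 _)
  set β : ℝ := (k : ℝ) + 2 - 1 / 2 ^ (k + 1) with hβ
  have hβα : 2 * β = (k : ℝ) + 1 + 2 + α := by
    rw [hβ, hα, pow_succ]
    field_simp
    ring
  have hβ0 : 0 < β := by nlinarith
  have hCD : 1 ≤ C1 + (D : ℝ) ^ 2 := by nlinarith [sq_nonneg (D : ℝ)]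
  rcases Nat.eq_zero_or_pos Z.card with hz | hz
  · have hE0 : E = ∅ := by
      rw [hE]
      apply Finset.filter_eq_empty_iff.2
      intro w hw
      have := (Fintype.mem_piFinset.1 hw) 0
      rw [Finset.card_eq_zero.1 hz] at this
      simp at this
    rw [hE0, Finset.card_empty, Nat.cast_zero]
    exact mul_nonneg (by linarith) (Real.rpow_nonneg hn0 _)
  · have hn1 : 1 ≤ n := by rw [hn]; exact_mod_cast hz
    have hnpos : 0 < n := by linarith
    have e1 : n ^ (k + 1) * (n ^ 2 * (C1 * n ^ α)) = C1 * n ^ (2 * β) := by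
      rw [hβα, Real.rpow_add hnpos, Real.rpow_add hnpos]
      have : n ^ ((k : ℝ) + 1) = n ^ (k + 1) := by
        rw [← Real.rpow_natCast]; push_cast; rfl
      rw [this]
      have h2 : n ^ (2 : ℝ) = n ^ 2 := by norm_cast
      rw [h2]; ring
    have e2 : n ^ (k + 1) * (n * (D : ℝ) ^ 2 * n ^ (k + 1)) ≤ (D : ℝ) ^ 2 * n ^ (2 * β) := by
      have h1 : n ^ (k + 1) * (n * (D : ℝ) ^ 2 * n ^ (k + 1)) = (D : ℝ) ^ 2 * n ^ (2 * k + 3) := by
        ring
      rw [h1]
      refine mul_le_mul_of_nonneg_left ?_ (sq_nonneg _)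
      rw [← Real.rpow_natCast]
      refine Real.rpow_le_rpow_of_exponent_le hn1 ?_
      rw [hβα, hα]
      push_cast
      linarith
    have h3 : (E.card : ℝ) ^ 2 ≤ ((C1 + (D : ℝ) ^ 2) * n ^ β) ^ 2 := by
      calc (E.card : ℝ) ^ 2 ≤ _ := hEsq
        _ = n ^ (k + 1) * (n ^ 2 * (C1 * n ^ α)) + n ^ (k + 1) * (n * (D : ℝ) ^ 2 * n ^ (k + 1)) := by
          ring
        _ ≤ C1 * n ^ (2 * β) + (D : ℝ) ^ 2 * n ^ (2 * β) := by rw [e1]; linarith
        _ = (C1 + (D : ℝ) ^ 2) * n ^ (2 * β) := by ring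
        _ ≤ (C1 + (D : ℝ) ^ 2) ^ 2 * n ^ (2 * β) := by
          refine mul_le_mul_of_nonneg_right ?_ (Real.rpow_nonneg hn0 _)
          nlinarith
        _ = ((C1 + (D : ℝ) ^ 2) * n ^ β) ^ 2 := by
          rw [mul_pow, ← Real.rpow_natCast (n ^ β) 2, ← Real.rpow_mul hn0]
          congr 2
          push_cast; ring
    exact le_of_sq_le_sq h3 (mul_nonneg (by linarith) (Real.rpow_nonneg hn0 _))

open Classical in
private lemma ac_step {k L : ℕ} {C1 : ℝ} (hC1 : 1 ≤ C1)
    (ih : ∀ (Z : Finset (Fin (k + 1) → ℚ)) (F : MvPolynomial (Fin (k + 1)) ℚ), F ≠ 0 →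
      (∀ j, F.degreeOf j ≤ 2 * L * L + L) → Star Z →
      ((((Fintype.piFinset fun _ : Fin (k + 1) => Z)).filter
        (fun w => MvPolynomial.eval (∏ r, w r) F = 0)).card : ℝ) ≤
        C1 * (Z.card : ℝ) ^ ((k : ℝ) + 1 - 1 / 2 ^ k))
    (Z : Finset (Fin (k + 2) → ℚ)) (hZ : Star Z) (N : ℕ) :
    ∀ F : MvPolynomial (Fin (k + 2)) ℚ, F.totalDegree ≤ N → F ≠ 0 → (∀ j, F.degreeOf j ≤ L) →
    ((((Fintype.piFinset fun _ : Fin (k + 2) => Z)).filter
      (fun w => MvPolynomial.eval (∏ r, w r) F = 0)).card : ℝ) ≤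
      (C1 + (((k + 2) * L : ℕ) : ℝ) ^ 2) * (Z.card : ℝ) ^ ((k : ℝ) + 2 - 1 / 2 ^ (k + 1)) := by
  induction N with
  | zero =>
    intro F hN hF hL
    refine ac_step_aux hC1 ih Z F hF hL hZ fun j hj => ?_
    obtain ⟨G, rfl⟩ := hj
    have hG : G ≠ 0 := fun h0 => hF (by rw [h0, mul_zero])
    rw [totalDegree_mul_of_isDomain (X_ne_zero j) hG, totalDegree_X] at hN
    omega
  | succ N IH =>
    intro F hN hF hL
    by_cases hX : ∀ j, ¬ X j ∣ F
    · exact ac_step_aux hC1 ih Z F hF hL hZ hX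
    · push Not at hX
      obtain ⟨j, G, rfl⟩ := hX
      have hG : G ≠ 0 := fun h0 => hF (by rw [h0, mul_zero])
      rw [totalDegree_mul_of_isDomain (X_ne_zero j) hG, totalDegree_X] at hN
      refine le_trans ?_ (IH G (by omega) hG fun i => ?_)
      · norm_cast
        apply Finset.card_le_card
        intro w hw
        obtain ⟨h1, h2⟩ := Finset.mem_filter.1 hw
        refine Finset.mem_filter.2 ⟨h1, ?_⟩
        rw [map_mul, eval_X, mul_eq_zero] at h2
        rcases h2 with h2 | h2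
        · exfalso
          rw [Finset.prod_apply] at h2
          rw [Finset.prod_eq_zero_iff] at h2
          obtain ⟨r, _, hr⟩ := h2
          exact hZ.1 _ ((Fintype.mem_piFinset.1 h1) r) j hr
        · exact h2
      · have := hL i
        rw [degreeOf_mul_eq (X_ne_zero j) hG] at this
        omega

open Classical in
/-- anti-concentration -/
theorem ac_thm : S_AC := by
  intro k
  induction k with
  | zero =>
    intro L
    refine ⟨(L : ℝ) + 1, by linarith [(Nat.cast_nonneg L : (0 : ℝ) ≤ L)], fun Z F hF hL hZ => ?_⟩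
    have h1 : (((Fintype.piFinset fun _ : Fin (0 + 1) => Z)).filter
        (fun w => MvPolynomial.eval (∏ r, w r) F = 0)).card ≤ (Z.filter fun z => eval z F = 0).card := by
      refine Finset.card_le_card_of_injOn (fun w => w 0) ?_ ?_
      · intro w hw
        obtain ⟨h3, h4⟩ := Finset.mem_filter.1 hw
        rw [Finset.mem_coe, Finset.mem_filter]
        refine ⟨(Fintype.mem_piFinset.1 h3) 0, ?_⟩
        rw [Finset.prod_eq_single (0 : Fin (0 + 1))] at h4
        · exact h4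
        · intro b _ hb
          exact absurd (Fin.eq_zero b) hb
        · simp
      · intro w _ w' _ h
        funext r
        have : r = 0 := Fin.eq_zero r
        subst this
        exact h
    have h2 := h1.trans (ac_base L Z F hF hL)
    have h3 : ((0 : ℕ) : ℝ) + 1 - 1 / 2 ^ 0 = 0 := by norm_num
    rw [h3, Real.rpow_zero, mul_one]
    have : ((((Fintype.piFinset fun _ : Fin (0 + 1) => Z)).filter
        (fun w => MvPolynomial.eval (∏ r, w r) F = 0)).card : ℝ) ≤ L := by exact_mod_cast h2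
    linarith
  | succ k IH =>
    intro L
    obtain ⟨C1, hC1, h1⟩ := IH (2 * L * L + L)
    refine ⟨C1 + (((k + 2) * L : ℕ) : ℝ) ^ 2, by nlinarith [sq_nonneg (((k + 2) * L : ℕ) : ℝ)],
      fun Z F hF hL hZ => ?_⟩
    have h2 := ac_step hC1 h1 Z hZ F.totalDegree F le_rfl hF hL
    have h3 : (((k + 1 : ℕ) : ℝ) + 1 - 1 / 2 ^ (k + 1)) = (k : ℝ) + 2 - 1 / 2 ^ (k + 1) := by
      push_cast; ring
    rw [h3]
    exact h2

end Pool.SHA
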