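import Mathlib

set_option autoImplicit false

namespace Pool.SHA

open MvPolynomial

/-- vanishing resultant gives a syzygy -/
private lemma ac_syz {A : Type*} [CommRing A] [IsDomain A] (f g : Polynomial A) (m n : ℕ)
    (hf : f.natDegree ≤ m) (hg : g.natDegree ≤ n) (h : Polynomial.resultant f g m n = 0) :
    ∃ p q : Polynomial A, p.degree < m ∧ q.degree < n ∧ (p ≠ 0 ∨ q ≠ 0) ∧ f * q + g * p = 0 := by
  classical
  obtain ⟨v, hv0, hv⟩ := Matrix.exists_mulVec_eq_zero_iff.2 h
  rw [← Polynomial.toMatrix_sylvesterMap' f g hf hg] at hv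
  set b₁ := (((Polynomial.degreeLT.basis A m).prod (Polynomial.degreeLT.basis A n)).reindex
    finSumFinEquiv) with hb₁
  set x := b₁.equivFun.symm v with hx
  have h1 : b₁.repr x = v := by
    have := b₁.equivFun.apply_symm_apply v
    rw [← hx] at this
    exact this
  rw [← h1, LinearMap.toMatrix_mulVec_repr] at hv
  have h2 : (Polynomial.sylvesterMap f g hf hg) x = 0 := by
    have h3 : (Polynomial.degreeLT.basis A (m + n)).repr ((Polynomial.sylvesterMap f g hf hg) x)
        = 0 := by
      ext i
      exact congrFun hv i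
    exact (LinearEquiv.map_eq_zero_iff _).1 h3
  have hx0 : x ≠ 0 := by
    intro h0
    apply hv0
    rw [← h1, h0]
    simp
  refine ⟨x.1.1, x.2.1, ?_, ?_, ?_, ?_⟩
  · exact Polynomial.mem_degreeLT.1 x.1.2
  · exact Polynomial.mem_degreeLT.1 x.2.2
  · by_contra hc
    push Not at hc
    apply hx0
    ext1
    · exact Subtype.ext hc.1
    · exact Subtype.ext hc.2
  · have := congrArg Subtype.val h2
    rw [Polynomial.sylvesterMap_apply_coe] at this
    exact this

private lemma ac_res_ne {A : Type*} [CommRing A] [IsDomain A] [UniqueFactorizationMonoid A]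
    (f g : Polynomial A) (d : ℕ) (hd : 0 < d)
    (hf : f.natDegree = d) (hg : g.natDegree = d) (hrel : IsRelPrime f g) :
    Polynomial.resultant f g d d ≠ 0 := by
  intro h
  obtain ⟨p, q, hp, hq, hpq, he⟩ := ac_syz f g d d hf.le hg.le h
  have hf0 : f ≠ 0 := by
    intro h0; rw [h0, Polynomial.natDegree_zero] at hf; omega
  have hdvd : f ∣ g * p := by
    have : g * p = f * (-q) := by linear_combination he
    exact ⟨-q, this⟩
  have h2 : f ∣ p := hrel.dvd_of_dvd_mul_left hdvd
  have hp0 : p = 0 := by
    by_contra hp0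
    have := Polynomial.degree_le_of_dvd h2 hp0
    rw [Polynomial.degree_eq_natDegree hf0, hf] at this
    exact absurd (lt_of_le_of_lt this hp) (lt_irrefl _)
  rw [hp0, mul_zero, add_zero] at he
  have hq0 : q = 0 := by
    rcases mul_eq_zero.1 he with h | h
    · exact absurd h hf0
    · exact h
  rcases hpq with h | h
  · exact h hp0
  · exact h hq0

private lemma ac_det_deg {n N L : ℕ} (M : Matrix (Fin N) (Fin N) (MvPolynomial (Fin n) ℚ)) (j : Fin n)
    (h : ∀ a b, (M a b).degreeOf j ≤ L) : M.det.degreeOf j ≤ N * L := by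
  classical
  rw [Matrix.det_apply]
  refine (degreeOf_sum_le _ _ _).trans (Finset.sup_le fun σ _ => ?_)
  have h1 : (Equiv.Perm.sign σ • ∏ i, M (σ i) i).degreeOf j ≤ (∏ i, M (σ i) i).degreeOf j := by
    rcases Int.units_eq_one_or (Equiv.Perm.sign σ) with h | h
    · rw [h, one_smul]
    · rw [h, Units.neg_smul, one_smul]
      rw [degreeOf_neg]
  refine h1.trans ((degreeOf_prod_le _ _ _).trans ?_)
  calc ∑ i, (M (σ i) i).degreeOf j ≤ ∑ _i : Fin N, L := Finset.sum_le_sum fun i _ => h _ _
    _ = N * L := by simp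

/-- elimination of the variable `0` -/
lemma ac_res {n L : ℕ} (f g : MvPolynomial (Fin (n + 1)) ℚ) (hf : f ≠ 0)
    (hdg : g.degreeOf 0 = f.degreeOf 0) (hL : ∀ j, f.degreeOf j ≤ L) (hL' : ∀ j, g.degreeOf j ≤ L)
    (hrel : IsRelPrime f g) :
    ∃ R : MvPolynomial (Fin n) ℚ, R ≠ 0 ∧ (∀ j, R.degreeOf j ≤ 2 * L * L + L) ∧
      ∀ x : Fin (n + 1) → ℚ, eval x f = 0 → eval x g = 0 → eval (Fin.tail x) R = 0 := by
  set φ := finSuccEquiv ℚ n with hφ
  set d := f.degreeOf 0 with hd
  have hnf : (φ f).natDegree = d := natDegree_finSuccEquiv f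
  have hng : (φ g).natDegree = d := by rw [hφ, natDegree_finSuccEquiv g, hdg]
  have hφf : φ f ≠ 0 := by
    intro h; exact hf ((map_eq_zero_iff φ φ.injective).1 h)
  have hev : ∀ (x : Fin (n + 1) → ℚ) (h : MvPolynomial (Fin (n + 1)) ℚ),
      eval x h = Polynomial.eval (x 0) (Polynomial.map (eval (Fin.tail x)) (φ h)) := by
    intro x h
    rw [← eval_eq_eval_mv_eval', Fin.cons_self_tail]
  rcases Nat.eq_zero_or_pos d with hd0 | hd0
  · refine ⟨(φ f).coeff 0, ?_, fun j => ?_, fun x hx _ => ?_⟩
    · intro h0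
      apply hφf
      rw [Polynomial.eq_C_of_natDegree_eq_zero (hnf.trans hd0), h0, Polynomial.C_0]
    · exact ((degreeOf_coeff_finSuccEquiv f j 0).trans (hL _)).trans (by omega)
    · rw [hev x f, Polynomial.eq_C_of_natDegree_eq_zero (hnf.trans hd0), Polynomial.map_C,
        Polynomial.eval_C] at hx
      exact hx
  · have hrel' : IsRelPrime (φ f) (φ g) := by
      intro a ha hb
      have h1 : φ.symm a ∣ f := by
        have := map_dvd φ.symm ha
        rwa [AlgEquiv.symm_apply_apply] at this
      have h2 : φ.symm a ∣ g := by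
        have := map_dvd φ.symm hb
        rwa [AlgEquiv.symm_apply_apply] at this
      have h3 := (hrel h1 h2).map φ
      rwa [AlgEquiv.apply_symm_apply] at h3
    refine ⟨Polynomial.resultant (φ f) (φ g) d d, ac_res_ne _ _ d hd0 hnf hng hrel', fun j => ?_,
      fun x hx hy => ?_⟩
    · have h1 : (Polynomial.resultant (φ f) (φ g) d d).degreeOf j ≤ (d + d) * L := by
        refine ac_det_deg _ j fun a b => ?_
        rw [Polynomial.sylvester, Matrix.of_apply]
        refine Fin.addCases (fun b => ?_) (fun b => ?_) b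
        · rw [Fin.addCases_left]
          split_ifs
          · exact (degreeOf_coeff_finSuccEquiv g j _).trans (hL' _)
          · simp
        · rw [Fin.addCases_right]
          split_ifs
          · exact (degreeOf_coeff_finSuccEquiv f j _).trans (hL _)
          · simp
      have h2 : d ≤ L := hL 0
      nlinarith
    · obtain ⟨p, q, -, -, he⟩ := Polynomial.exists_mul_add_mul_eq_C_resultant (φ f) (φ g)
        hnf.le hng.le (Or.inl hd0.ne')
      have h1 := congrArg (fun r => Polynomial.eval (x 0) (Polynomial.map (eval (Fin.tail x)) r)) he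
      simp only [Polynomial.map_add, Polynomial.map_mul, Polynomial.eval_add, Polynomial.eval_mul,
        Polynomial.map_C, Polynomial.eval_C] at h1
      rw [← hev x f, ← hev x g, hx, hy, zero_mul, zero_mul, add_zero] at h1
      exact h1.symm

end Pool.SHA
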