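import Pool.Agent.H45.SHA.Stmts
import Pool.Agent.H45.SHA.LOW

set_option autoImplicit false

namespace Pool.SHA

open Finset Pool.Agent.H98.ABCR

/-- The final statement, from the main theorem. -/
theorem final (hM : S_MAIN) :
    (∀ ε : ℝ, 0 < ε → ∃ A C : ℝ, ∀ X H : ℝ, 1 ≤ X → 1 ≤ H →
      {t : ℕ × ℕ | 0 < t.1 ∧ 0 < t.2 ∧ Nat.Coprime t.1 t.2 ∧
        ((∏ p ∈ (t.1 * t.2 * (t.1 + t.2)).primeFactors, p : ℕ) : ℝ) ≤ X ∧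
        Real.log ((t.1 + t.2 : ℕ) : ℝ) ≤ H}.Finite ∧
      (({t : ℕ × ℕ | 0 < t.1 ∧ 0 < t.2 ∧ Nat.Coprime t.1 t.2 ∧
        ((∏ p ∈ (t.1 * t.2 * (t.1 + t.2)).primeFactors, p : ℕ) : ℝ) ≤ X ∧
        Real.log ((t.1 + t.2 : ℕ) : ℝ) ≤ H}.ncard : ℕ) : ℝ) ≤
        C * X ^ (2 / 3 + ε) * H ^ A) ∧
    ∀ X H : ℝ, 2 ≤ X → Real.log X ≤ H →
      X ^ (2 / 3 : ℝ) / 32 ≤ (({t : ℕ × ℕ | 0 < t.1 ∧ 0 < t.2 ∧ Nat.Coprime t.1 t.2 ∧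
        ((∏ p ∈ (t.1 * t.2 * (t.1 + t.2)).primeFactors, p : ℕ) : ℝ) ≤ X ∧
        Real.log ((t.1 + t.2 : ℕ) : ℝ) ≤ H}.ncard : ℕ) : ℝ) := by
  classical
  have hfin : ∀ X H : ℝ, {t : ℕ × ℕ | 0 < t.1 ∧ 0 < t.2 ∧ Nat.Coprime t.1 t.2 ∧
        ((∏ p ∈ (t.1 * t.2 * (t.1 + t.2)).primeFactors, p : ℕ) : ℝ) ≤ X ∧
        Real.log ((t.1 + t.2 : ℕ) : ℝ) ≤ H}.Finite := by
    intro X H
    refine Set.Finite.subset (((Finset.range (⌊Real.exp H⌋₊ + 1)) ×ˢ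
      (Finset.range (⌊Real.exp H⌋₊ + 1))).finite_toSet) ?_
    rintro t ⟨h1, h2, -, -, h5⟩
    have hpos : (0 : ℝ) < ((t.1 + t.2 : ℕ) : ℝ) := by exact_mod_cast (by omega : 0 < t.1 + t.2)
    have h6 : ((t.1 + t.2 : ℕ) : ℝ) ≤ Real.exp H := by
      rw [← Real.log_le_iff_le_exp hpos]; exact h5
    have h7 : t.1 + t.2 ≤ ⌊Real.exp H⌋₊ := Nat.le_floor h6
    rw [Finset.mem_coe, Finset.mem_product, Finset.mem_range, Finset.mem_range]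
    constructor <;> omega
  constructor
  · intro ε hε
    obtain ⟨A, C, -, -, h⟩ := hM ε hε
    refine ⟨A, C, fun X H hX hH => ⟨hfin X H, ?_⟩⟩
    have h1 := h X H (hfin X H).toFinset hX hH (fun v hv => by
      rw [Set.Finite.mem_toFinset] at hv
      obtain ⟨h1, h2, h3, h4, h5⟩ := hv
      exact ⟨⟨h1, h2, h3⟩, h4, h5⟩)
    rwa [← Set.ncard_eq_toFinset_card _ (hfin X H)] at h1
  · intro X H hX hH
    exact low X H hX hH (hfin X H)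

end Pool.SHA
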