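import Pool.Agent.H45.SHA.Stmts
import Pool.Agent.H45.SHA.AC
import Pool.Agent.H45.SHA.LOW
import Pool.Agent.H45.SHA.Final
import Pool.Agent.H50.SHA.DET
import Pool.Agent.H50.SHA.SOL
import Pool.Agent.H50.SHA.TL
import Pool.Agent.H40.SHA.VAN
import Pool.Agent.H40.SHA.SRD
import Pool.Agent.H38.SHA.CLS
import Pool.Agent.H38.SHA.MAIN
import Pool.Agent.H2.SHA.TLD
import Pool.Agent.H51.SHA.TR0
import Pool.Agent.H61.SHA.GP
import Pool.Agent.H88.SHA.KNR
import Pool.Agent.H88.SHA.KN
import Pool.Agent.H96.SHA.FA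

set_option autoImplicit false

namespace Pool.SHA

/-- few independent points near a toric hypersurface -/
theorem all_CLS : S_CLS := cls_thm ac_thm (van_thm sol_thm det_thm)

/-- few tuples of free primes -/
theorem all_TL : S_TL := tl_thm (tld_thm all_CLS)

/-- the main theorem -/
theorem all_MAIN : S_MAIN :=
  main_thm (tr0_thm srd_thm) (kn_thm knr_thm) (fa_thm all_TL gp_thm) gp_thm

end Pool.SHA
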