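import Pool.Agent.H98.ABCR.Stmts

/-!
# SHA: the sharp exponent 2/3 for abc triples of subexponential height

Definitions and the statements of the modules. Proofs in words: `/team-store/SHA_PLAN.md`.
Module `XXX` is a theorem `xxx_thm (h1 : S_AAA) ... : S_XXX` in `Pool/Agent/H<k>/SHA/XXX.lean`
(import this file, namespace `Pool.SHA`).
-/

set_option autoImplicit false

namespace Pool.SHA

open Finset Pool.Agent.H98.ABCR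

/-! ## Definitions (with `coord`, `IsTri`, `nn`, `RR`, `rad`, `om` of ABCR) -/

/-- logarithmic height of a triple -/
noncomputable def hh (v : ℕ × ℕ) : ℝ := Real.log ((v.1 + v.2 : ℕ) : ℝ)

/-- logarithm of the `K`-part of `n` -/
noncomputable def kl (K : Finset ℕ) (n : ℕ) : ℝ := ∑ q ∈ K, (n.factorization q : ℝ) * Real.log q

/-- mass (times the height) of the places `K` and of the archimedean place -/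
noncomputable def mass (K : Finset ℕ) (v : ℕ × ℕ) : ℝ :=
  ∑ s : Fin 3, kl K (coord v s) + (hh v - Real.log ((min v.1 v.2 : ℕ) : ℝ))

/-- multiplicative independence of the differences -/
def Star {k : ℕ} (Z : Finset (Fin k → ℚ)) : Prop :=
  (∀ z ∈ Z, ∀ j, z j ≠ 0) ∧
  ∀ z ∈ Z, ∀ z' ∈ Z, z ≠ z' → ∀ e : Fin k → ℤ, e ≠ 0 → ∏ j, (z j / z' j) ^ e j ≠ 1

/-- points as rational points -/
def toQ {k : ℕ} (z : Fin k → ℕ) : Fin k → ℚ := fun j => (z j : ℚ)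

/-- the toric relation between two points modulo `M` -/
def Rel {k : ℕ} (J : Finset (Fin k)) (ξ : Fin k → ℕ) (M : ℕ) (y y0 : Fin k → ℤ) : Prop :=
  (∏ j ∈ J, y j ^ ξ j) * (∏ j ∈ Jᶜ, y0 j ^ ξ j) ≡
    (∏ j ∈ Jᶜ, y j ^ ξ j) * (∏ j ∈ J, y0 j ^ ξ j) [ZMOD M]

/-- natural points as integer points -/
def toZ {k : ℕ} (z : Fin k → ℕ) : Fin k → ℤ := fun j => (z j : ℤ)

/-! ## Part A: points near a toric hypersurface -/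

open Classical in
/-- anti-concentration: few `k`-fold products of points of `Z` lie on a hypersurface -/
def S_AC : Prop := ∀ (k L : ℕ), ∃ C : ℝ, 1 ≤ C ∧
  ∀ (Z : Finset (Fin (k + 1) → ℚ)) (F : MvPolynomial (Fin (k + 1)) ℚ), F ≠ 0 →
    (∀ j, F.degreeOf j ≤ L) → Star Z →
    ((((Fintype.piFinset fun _ : Fin (k + 1) => Z)).filter
      (fun w => MvPolynomial.eval (∏ r, w r) F = 0)).card : ℝ) ≤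
      C * (Z.card : ℝ) ^ ((k : ℝ) + 1 - 1 / 2 ^ k)

/-- divisibility of determinants -/
def S_DET : Prop := ∀ (r m D : ℕ) (P : ℤ) (G : Fin m → MvPolynomial (Fin r) ℤ) (y0 : Fin r → ℤ)
  (z : Fin m → Fin r → ℤ),
  P ^ (D * (m - D ^ r)) ∣
    (Matrix.of fun n i : Fin m => MvPolynomial.eval (fun j => y0 j + P * z n j) (G i)).det

/-- solving the toric relation for one variable -/
def S_SOL : Prop := ∀ (k p f v : ℕ) (J : Finset (Fin (k + 1))) (ξ : Fin (k + 1) → ℕ)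
  (y0 : Fin (k + 1) → ℤ), p.Prime → 1 ≤ f → (p = 2 → 2 ≤ f) → (∀ j, 1 ≤ ξ j) →
  (∀ j, ¬ (p : ℤ) ∣ y0 j) →
  ∃ (j0 : Fin (k + 1)) (n : Fin (k + 1) → ℕ) (c : ℤ) (t : ℕ), p ^ t ∣ ξ j0 ∧
    ∀ y : Fin (k + 1) → ℤ, (∀ j, (p : ℤ) ^ f ∣ y j - y0 j) → Rel J ξ (p ^ v) y y0 →
      y j0 ≡ c * ∏ j ∈ univ.erase j0, y j ^ n j [ZMOD ((p ^ (v - t) : ℕ) : ℤ)]

/-- the points of one residue class lie on a hypersurface of bounded degree -/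
def S_VAN : Prop := ∀ (k : ℕ) (κ : ℝ), 0 < κ → ∃ (L : ℕ) (C1 B0 : ℝ), 1 ≤ C1 ∧ 1 ≤ B0 ∧
  ∀ (B : ℝ) (p f v : ℕ) (J : Finset (Fin (k + 1))) (ξ : Fin (k + 1) → ℕ)
    (Y : Finset (Fin (k + 1) → ℕ)), B0 ≤ B → p.Prime → B ^ κ ≤ (p : ℝ) ^ f → 1 ≤ f →
    (p = 2 → 2 ≤ f) → (∀ j, 1 ≤ ξ j) → (∀ j, (ξ j : ℝ) * B ^ C1 ≤ (p : ℝ) ^ v) →
    (∀ y ∈ Y, ∀ j, (y j : ℝ) ≤ B ^ ((k : ℝ) + 1) ∧ ¬ p ∣ y j) →
    (∀ y ∈ Y, ∀ y' ∈ Y, (∀ j, y j ≡ y' j [MOD p ^ f]) ∧ Rel J ξ (p ^ v) (toZ y) (toZ y')) →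
    ∃ F : MvPolynomial (Fin (k + 1)) ℚ, F ≠ 0 ∧ (∀ j, F.degreeOf j ≤ L) ∧
      ∀ y ∈ Y, MvPolynomial.eval (toQ y) F = 0

/-- few independent points near a toric hypersurface -/
def S_CLS : Prop := ∀ (k : ℕ) (ε : ℝ), 0 < ε → ∃ C1 B0 : ℝ, 1 ≤ C1 ∧ 1 ≤ B0 ∧
  ∀ (B : ℝ) (p v : ℕ) (J : Finset (Fin (k + 1))) (ξ : Fin (k + 1) → ℕ)
    (Z : Finset (Fin (k + 1) → ℕ)), B0 ≤ B → p.Prime → (p : ℝ) ^ C1 ≤ B → (∀ j, 1 ≤ ξ j) →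
    (∀ j, (ξ j : ℝ) * B ^ C1 ≤ (p : ℝ) ^ v) →
    (∀ z ∈ Z, ∀ j, (z j : ℝ) ≤ B ∧ ¬ p ∣ z j) → Star (Z.image toQ) →
    (∀ z ∈ Z, ∀ z' ∈ Z, Rel J ξ (p ^ v) (toZ z) (toZ z')) →
    (Z.card : ℝ) ≤ B ^ ε

/-! ## Part B: free primes -/

/-- the tuple `q` of free primes is realised: by a triple of height about `h0` whose coordinate `i`
is divisible by a high power of `p`, and whose two other coordinates are `K`-units times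
`∏ q j ^ e s j` -/
def Real1 {k : ℕ} (X h0 Λ : ℝ) (K : Finset ℕ) (i : Fin 3) (p : ℕ) (e : Fin 3 → Fin k → ℕ)
    (q : Fin k → ℕ) : Prop :=
  Function.Injective q ∧ (∀ j, (q j).Prime ∧ (q j : ℝ) ≤ X ∧ q j ∉ K) ∧
  ∃ v : ℕ × ℕ, IsTri v ∧ h0 ≤ hh v ∧ hh v ≤ 2 * h0 ∧
    Λ ≤ ((coord v i).factorization p : ℝ) * Real.log p ∧
    ∀ s, s ≠ i → ∃ u : ℕ, u.primeFactors ⊆ K ∧ coord v s = u * ∏ j, q j ^ e s j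

/-- every free prime divides exactly one of the two coordinates -/
def ELab {k : ℕ} (i : Fin 3) (e : Fin 3 → Fin k → ℕ) : Prop :=
  ∀ j, ∃ s, s ≠ i ∧ 1 ≤ e s j ∧ ∀ s', s' ≠ i → s' ≠ s → e s' j = 0

/-- few tuples of free primes, all primes distinct -/
def S_TLD : Prop := ∀ (k : ℕ) (ε : ℝ), 0 < ε → ∃ A X0 : ℝ, 1 ≤ A ∧ 1 ≤ X0 ∧
  ∀ (X h0 Λ : ℝ) (W : ℕ) (K : Finset ℕ) (i : Fin 3) (p : ℕ) (e : Fin 3 → Fin (k + 1) → ℕ)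
    (Q : Finset (Fin (k + 1) → ℕ)), X0 ≤ X → 1 ≤ h0 → h0 ≤ X → (W : ℝ) ≤ Real.log X →
    K.card ≤ W → (∀ q ∈ K, q.Prime) → p ∈ K → (p : ℝ) ≤ X → ELab i e →
    A * (Real.log X + W * Real.log (h0 * Real.log X)) ≤ Λ →
    (∀ q ∈ Q, Real1 X h0 Λ K i p e q) →
    (∀ q ∈ Q, ∀ q' ∈ Q, ∀ j j', q j = q' j' → q = q' ∧ j = j') →
    (Q.card : ℝ) ≤ X ^ ε

/-- few tuples of free primes -/
def S_TL : Prop := ∀ (k : ℕ) (ε : ℝ), 0 < ε → ∃ A X0 : ℝ, 1 ≤ A ∧ 1 ≤ X0 ∧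
  ∀ (X h0 Λ : ℝ) (W : ℕ) (K : Finset ℕ) (i : Fin 3) (p : ℕ) (e : Fin 3 → Fin k → ℕ)
    (Q : Finset (Fin k → ℕ)), X0 ≤ X → 1 ≤ h0 → h0 ≤ X → (W : ℝ) ≤ Real.log X →
    K.card + k ≤ W → (∀ q ∈ K, q.Prime) → p ∈ K → (p : ℝ) ≤ X → ELab i e →
    A * (Real.log X + W * Real.log (h0 * Real.log X)) ≤ Λ →
    (∀ q ∈ Q, Real1 X h0 Λ K i p e q) → (Q.card : ℝ) ≤ X ^ ε

/-! ## Part C: known places -/

/-- the gap principle: places of total mass `> 2` determine the triple, up to `C ^ |K|` cells -/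
def S_GP : Prop := ∀ δ : ℝ, 0 < δ → δ ≤ 1 → ∃ C : ℝ, 1 ≤ C ∧
  ∀ (H : ℝ) (K : Finset ℕ) (F : Finset (ℕ × ℕ)), 1 ≤ H → (∀ q ∈ K, q.Prime) →
  (∀ v ∈ F, IsTri v ∧ hh v ≤ H ∧ (2 + δ) * hh v ≤ mass K v) →
  (F.card : ℝ) ≤ C ^ (K.card + 1) * (1 + Real.log H)

/-- sum of the reciprocals of the radicals -/
def S_SRD : Prop := ∃ C : ℝ, 1 ≤ C ∧ ∀ h : ℝ, 1 ≤ h →
  ∑ n ∈ Icc 1 ⌊Real.exp h⌋₊, (1 : ℝ) / rad n ≤ Real.exp (C * Real.sqrt h)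

/-- triples of small height -/
def S_TR0 : Prop := ∃ C : ℝ, 1 ≤ C ∧ ∀ (X h : ℝ) (F : Finset (ℕ × ℕ)), 1 ≤ X → 1 ≤ h →
  (∀ v ∈ F, IsTri v ∧ (RR v : ℝ) ≤ X ∧ hh v ≤ h) →
  (F.card : ℝ) ≤ 3 * X ^ (2 / 3 : ℝ) * Real.exp (C * Real.sqrt h)

/-! ## Part D: choice of the known set -/

/-- real knapsack: items `s` with cost `c`, mass `μ`, coordinate `i`; small items have cost `≤ η`;
`ν` is the archimedean mass -/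
def S_KNR : Prop := ∀ ε : ℝ, 0 < ε → ε ≤ 1 → ∃ δ η : ℝ, 0 < δ ∧ δ ≤ 1 ∧ 0 < η ∧ η ≤ 1 ∧
  ∀ (s : Finset ℕ) (c μ : ℕ → ℝ) (i : ℕ → Fin 3) (ν : ℝ) (s1 s2 : Fin 3), s1 ≠ s2 →
    (∀ q ∈ s, 0 < c q) → (∀ q ∈ s, 0 ≤ μ q) → 0 ≤ ν → ∑ q ∈ s, c q ≤ 1 →
    3 - δ ≤ ∑ q ∈ s, μ q + ν → ∑ q ∈ s, μ q + ν ≤ 3 →
    1 - δ ≤ ∑ q ∈ s.filter (fun q => i q = s1), μ q →
    1 - δ ≤ ∑ q ∈ s.filter (fun q => i q = s2), μ q →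
    ∃ K ⊆ s, ∑ q ∈ K, c q ≤ 2 / 3 + ε ∧
      (2 + δ ≤ ∑ q ∈ K, μ q + ν ∨
        ((∀ q ∈ s, q ∉ K → η < c q) ∧ ∃ t, δ ≤ ∑ q ∈ K.filter (fun q => i q = t), μ q))

/-- choice of the known primes of a triple -/
def S_KN : Prop := ∀ ε : ℝ, 0 < ε → ε ≤ 1 → ∃ δ η : ℝ, 0 < δ ∧ δ ≤ 1 ∧ 0 < η ∧ η ≤ 1 ∧
  ∀ (X : ℝ) (v : ℕ × ℕ), 3 ≤ X → IsTri v → (RR v : ℝ) ≤ X → 1 / δ ≤ hh v →
    ∃ K ⊆ (nn v).primeFactors, ((∏ q ∈ K, q : ℕ) : ℝ) ≤ X ^ (2 / 3 + ε) ∧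
      ((2 + δ) * hh v ≤ mass K v ∨
        ((∀ q ∈ (nn v).primeFactors, q ∉ K → X ^ η < (q : ℝ)) ∧
          ∃ t, δ * hh v ≤ kl K (coord v t)))

/-! ## Part E: assembly -/

/-- triples with a known set `K` of the second type -/
def S_FA : Prop := ∀ ε δ η c : ℝ, 0 < ε → 0 < δ → δ ≤ 1 → 0 < η → 0 < c →
  ∃ A X0 : ℝ, 1 ≤ A ∧ 1 ≤ X0 ∧ ∀ (X H : ℝ) (K : Finset ℕ) (F : Finset (ℕ × ℕ)), X0 ≤ X → 1 ≤ H →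
    (∀ v ∈ F, IsTri v ∧ (RR v : ℝ) ≤ X ∧ hh v ≤ H ∧ hh v ≤ X ∧ c * Real.log X ^ 2 ≤ hh v ∧
      K ⊆ (nn v).primeFactors ∧ (∀ q ∈ (nn v).primeFactors, q ∉ K → X ^ η < (q : ℝ)) ∧
      ∃ t, δ * hh v ≤ kl K (coord v t)) →
    (F.card : ℝ) ≤ X ^ ε * H ^ A

/-- MAIN THEOREM -/
def S_MAIN : Prop := ∀ ε : ℝ, 0 < ε → ∃ A C : ℝ, 1 ≤ A ∧ 1 ≤ C ∧
  ∀ (X H : ℝ) (F : Finset (ℕ × ℕ)), 1 ≤ X → 1 ≤ H →
    (∀ v ∈ F, IsTri v ∧ (RR v : ℝ) ≤ X ∧ hh v ≤ H) →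
    (F.card : ℝ) ≤ C * X ^ (2 / 3 + ε) * H ^ A

end Pool.SHA
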